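import Pool.Agent.Lib.MP_f89e7b_al.Defs

set_option autoImplicit false
set_option maxHeartbeats 1000000

namespace Pool.Agent.Results.MP_f89e7b_al.NotHomotopyInvariant

open CategoryTheory Category Limits Pretriangulated Triangulated
open Pool.Agent.Lib.MP_f89e7b_al

universe v u

/-- choices of exact triangles exist -/
theorem nonempty_choice {C : Type u} [Category.{v} C] [Preadditive C] [HasZeroObject C]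
    [HasShift C ℤ] [∀ n : ℤ, (shiftFunctor C n).Additive] [Pretriangulated C] {T T' : Triangle C}
    (φ : T ⟶ T') : Nonempty (Choice φ) := by
  obtain ⟨A, p, r, hA⟩ := distinguished_cocone_triangle (T.mor₁ ≫ φ.hom₂)
  obtain ⟨Y'', g', g'', hY⟩ := distinguished_cocone_triangle φ.hom₂
  obtain ⟨X'', f', f'', hX⟩ := distinguished_cocone_triangle φ.hom₁
  exact ⟨⟨A, p, r, hA, Y'', g', g'', hY, X'', f', f'', hX⟩⟩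

section abstract_part

variable {C : Type u} [Category.{v} C] [Preadditive C] [HasZeroObject C] [HasShift C ℤ]
  [∀ n : ℤ, (shiftFunctor C n).Additive] [Pretriangulated C]

/-- transport of octahedra along isomorphisms of the three cones -/
def transport {X₁ X₂ X₃ Z₁₂ Z₂₃ Z₁₃ Z₁₂' Z₂₃' Z₁₃' : C}
    {u₁₂ : X₁ ⟶ X₂} {u₂₃ : X₂ ⟶ X₃} {u₁₃ : X₁ ⟶ X₃} {comm : u₁₂ ≫ u₂₃ = u₁₃}
    {v₁₂ : X₂ ⟶ Z₁₂} {w₁₂ : Z₁₂ ⟶ X₁⟦(1 : ℤ)⟧} {h₁₂ : Triangle.mk u₁₂ v₁₂ w₁₂ ∈ distTriang C}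
    {v₂₃ : X₃ ⟶ Z₂₃} {w₂₃ : Z₂₃ ⟶ X₂⟦(1 : ℤ)⟧} {h₂₃ : Triangle.mk u₂₃ v₂₃ w₂₃ ∈ distTriang C}
    {v₁₃ : X₃ ⟶ Z₁₃} {w₁₃ : Z₁₃ ⟶ X₁⟦(1 : ℤ)⟧} {h₁₃ : Triangle.mk u₁₃ v₁₃ w₁₃ ∈ distTriang C}
    (O : Octahedron comm h₁₂ h₂₃ h₁₃)
    {v₁₂' : X₂ ⟶ Z₁₂'} {w₁₂' : Z₁₂' ⟶ X₁⟦(1 : ℤ)⟧} (h₁₂' : Triangle.mk u₁₂ v₁₂' w₁₂' ∈ distTriang C)
    {v₂₃' : X₃ ⟶ Z₂₃'} {w₂₃' : Z₂₃' ⟶ X₂⟦(1 : ℤ)⟧} (h₂₃' : Triangle.mk u₂₃ v₂₃' w₂₃' ∈ distTriang C)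
    {v₁₃' : X₃ ⟶ Z₁₃'} {w₁₃' : Z₁₃' ⟶ X₁⟦(1 : ℤ)⟧} (h₁₃' : Triangle.mk u₁₃ v₁₃' w₁₃' ∈ distTriang C)
    (e₁₂ : Z₁₂ ≅ Z₁₂') (e₂₃ : Z₂₃ ≅ Z₂₃') (e₁₃ : Z₁₃ ≅ Z₁₃')
    (a₁₂ : v₁₂ ≫ e₁₂.hom = v₁₂') (b₁₂ : e₁₂.hom ≫ w₁₂' = w₁₂)
    (a₂₃ : v₂₃ ≫ e₂₃.hom = v₂₃') (b₂₃ : e₂₃.hom ≫ w₂₃' = w₂₃)
    (a₁₃ : v₁₃ ≫ e₁₃.hom = v₁₃') (b₁₃ : e₁₃.hom ≫ w₁₃' = w₁₃) :
    Octahedron comm h₁₂' h₂₃' h₁₃' where
  m₁ := e₁₂.inv ≫ O.m₁ ≫ e₁₃.hom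
  m₃ := e₁₃.inv ≫ O.m₃ ≫ e₂₃.hom
  comm₁ := by
    rw [← a₁₂, ← a₁₃]
    simp only [assoc, Iso.hom_inv_id_assoc]
    rw [O.comm₁_assoc]
  comm₂ := by
    simp only [assoc]
    rw [b₁₃, O.comm₂, ← b₁₂, Iso.inv_hom_id_assoc]
  comm₃ := by
    rw [← a₁₃, ← a₂₃]
    simp only [assoc, Iso.hom_inv_id_assoc]
    rw [O.comm₃_assoc]
  comm₄ := by
    simp only [assoc]
    rw [b₂₃, ← O.comm₄, ← b₁₃]
    simp
  mem := by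
    have q₁ : (e₁₂.inv ≫ O.m₁ ≫ e₁₃.hom) ≫ e₁₃.inv = e₁₂.inv ≫ O.m₁ := by simp
    have q₂ : (e₁₃.inv ≫ O.m₃ ≫ e₂₃.hom) ≫ e₂₃.inv = e₁₃.inv ≫ O.m₃ := by simp
    have q₃ : (w₂₃' ≫ v₁₂'⟦(1 : ℤ)⟧') ≫ e₁₂.inv⟦(1 : ℤ)⟧' = e₂₃.inv ≫ (w₂₃ ≫ v₁₂⟦(1 : ℤ)⟧') := by
      have t₁ : v₁₂' ≫ e₁₂.inv = v₁₂ := by rw [← a₁₂]; simp
      have t₂ : e₂₃.inv ≫ w₂₃ = w₂₃' := by rw [← b₂₃]; simp
      rw [assoc, ← Functor.map_comp, t₁, ← assoc, t₂]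
    exact isomorphic_distinguished _ O.mem _
      (Triangle.isoMk _ _ e₁₂.symm e₁₃.symm e₂₃.symm q₁ q₂ q₃)

/-- the automorphism `1 + r μ` -/
def autA {A M : C} (r : A ⟶ M) (μ : M ⟶ A) (h : r ≫ μ ≫ r = 0) : A ≅ A where
  hom := 𝟙 A + r ≫ μ
  inv := 𝟙 A - r ≫ μ
  hom_inv_id := by
    have : r ≫ μ ≫ r ≫ μ = 0 := by rw [← assoc, ← assoc, assoc r μ r, h, zero_comp]
    simp only [Preadditive.comp_sub, Preadditive.add_comp, comp_id, id_comp, assoc, this]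
    abel
  inv_hom_id := by
    have : r ≫ μ ≫ r ≫ μ = 0 := by rw [← assoc, ← assoc, assoc r μ r, h, zero_comp]
    simp only [Preadditive.comp_add, Preadditive.sub_comp, comp_id, id_comp, assoc, this]
    abel

/-- isomorphism between two cones of the same map, compatible with the structure maps -/
theorem exists_cone_iso {X Y Z Z' : C} {u : X ⟶ Y} {v : Y ⟶ Z} {w : Z ⟶ X⟦(1 : ℤ)⟧}
    {v' : Y ⟶ Z'} {w' : Z' ⟶ X⟦(1 : ℤ)⟧} (h : Triangle.mk u v w ∈ distTriang C)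
    (h' : Triangle.mk u v' w' ∈ distTriang C) :
    ∃ e : Z ≅ Z', v ≫ e.hom = v' ∧ e.hom ≫ w' = w := by
  have h0 : u ≫ 𝟙 Y = 𝟙 X ≫ u := by rw [id_comp, comp_id]
  obtain ⟨c, hc₁, hc₂⟩ : ∃ c : Z ⟶ Z', v ≫ c = 𝟙 Y ≫ v' ∧ w ≫ (𝟙 X)⟦(1 : ℤ)⟧' = c ≫ w' :=
    complete_distinguished_triangle_morphism _ _ h h' (𝟙 X) (𝟙 Y) h0
  let F : Triangle.mk u v w ⟶ Triangle.mk u v' w' :=
    { hom₁ := 𝟙 X, hom₂ := 𝟙 Y, hom₃ := c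
      comm₁ := h0
      comm₂ := hc₁
      comm₃ := hc₂ }
  have hc : IsIso c := isIso₃_of_isIso₁₂ F h h' (inferInstanceAs (IsIso (𝟙 X)))
    (inferInstanceAs (IsIso (𝟙 Y)))
  refine ⟨asIso c, ?_, ?_⟩
  · simpa using hc₁
  · simpa using hc₂.symm

theorem pos {M Z A : C} {a : M ⟶ M} {v : M ⟶ Z} {w : Z ⟶ M⟦(1 : ℤ)⟧} {p : M ⟶ A}
    {r : A ⟶ M⟦(1 : ℤ)⟧} (hS : Triangle.mk a v w ∈ distTriang C)
    (hA : Triangle.mk (a ≫ a) p r ∈ distTriang C)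
    (O : Octahedron (rfl : a ≫ a = a ≫ a) hS hS hA) (μ : M⟦(1 : ℤ)⟧ ⟶ A) (hμ : r ≫ μ ≫ r = 0)
    {A' : C} {p' : M ⟶ A'} {r' : A' ⟶ M⟦(1 : ℤ)⟧} (hA' : Triangle.mk (a ≫ a) p' r' ∈ distTriang C)
    {Y' : C} {g' : M ⟶ Y'} {g'' : Y' ⟶ M⟦(1 : ℤ)⟧} (hY : Triangle.mk a g' g'' ∈ distTriang C)
    {X' : C} {f' : M ⟶ X'} {f'' : X' ⟶ M⟦(1 : ℤ)⟧} (hX : Triangle.mk a f' f'' ∈ distTriang C) :
    ∃ (O₁ : Octahedron (rfl : a ≫ a = a ≫ a) hS hY hA')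
      (O₂ : Octahedron (rfl : a ≫ a = a ≫ a) hX hS hA'), w ≫ μ ≫ O.m₃ = O₁.m₁ ≫ O₂.m₃ := by
  obtain ⟨eA, eA₁, eA₂⟩ := exists_cone_iso hA hA'
  obtain ⟨eY, eY₁, eY₂⟩ := exists_cone_iso hS hY
  obtain ⟨eX, eX₁, eX₂⟩ := exists_cone_iso hS hX
  have pr : p ≫ r = 0 := comp_distTriang_mor_zero₂₃ _ hA
  let l := autA r μ hμ
  have hl : l.hom = 𝟙 A + r ≫ μ := rfl
  have pl : p ≫ l.hom = p := by
    rw [hl, Preadditive.comp_add, comp_id, ← assoc, pr, zero_comp, add_zero]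
  have lr : l.hom ≫ r = r := by
    rw [hl, Preadditive.add_comp, id_comp, assoc, hμ, add_zero]
  have c₂ : O.m₁ ≫ r = w := O.comm₂
  have c₅ : O.m₁ ≫ O.m₃ = 0 := comp_distTriang_mor_zero₁₂ _ O.mem
  refine ⟨transport O hS hY hA' (Iso.refl _) eY (l ≪≫ eA) (by simp) (by simp) eY₁ eY₂ ?_ ?_,
    transport O hX hS hA' eX (Iso.refl _) eA eX₁ eX₂ (by simp) (by simp) eA₁ eA₂, ?_⟩
  · rw [Iso.trans_hom, ← assoc, pl, eA₁]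
  · rw [Iso.trans_hom, assoc, eA₂, lr]
  · simp only [transport, Iso.refl_inv, Iso.refl_hom, Iso.trans_hom, assoc, id_comp, comp_id,
      Iso.hom_inv_id_assoc, hl, Preadditive.add_comp, Preadditive.comp_add]
    rw [c₅, zero_add]
    exact ((assoc _ _ _).symm.trans (congrArg (fun t => t ≫ μ ≫ O.m₃) c₂)).symm

theorem neg' {M Z A : C} {a : M ⟶ M} {v : M ⟶ Z} {w : Z ⟶ M⟦(1 : ℤ)⟧} {p : M ⟶ A}
    {r : A ⟶ M⟦(1 : ℤ)⟧} (hS : Triangle.mk a v w ∈ distTriang C)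
    {u₁₃ : M ⟶ M} (hA : Triangle.mk u₁₃ p r ∈ distTriang C)
    {Y' : C} {g' : M ⟶ Y'} {g'' : Y' ⟶ M⟦(1 : ℤ)⟧} (hY : Triangle.mk (0 : M ⟶ M) g' g'' ∈ distTriang C)
    {X' : C} {f' : M ⟶ X'} {f'' : X' ⟶ M⟦(1 : ℤ)⟧} (hX : Triangle.mk (0 : M ⟶ M) f' f'' ∈ distTriang C)
    {q₁ : a ≫ (0 : M ⟶ M) = u₁₃} {q₂ : (0 : M ⟶ M) ≫ a = u₁₃}
    (O₁ : Octahedron q₁ hS hY hA) (O₂ : Octahedron q₂ hX hS hA) :
    ∃ x : M⟦(1 : ℤ)⟧ ⟶ M, O₁.m₁ ≫ O₂.m₃ = w ≫ x ≫ v := by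
  have c₁ : v ≫ O₁.m₁ = 0 := by rw [O₁.comm₁, zero_comp]
  have c₂ : O₂.m₃ ≫ w = 0 := by rw [← O₂.comm₄, Functor.map_zero, comp_zero]
  obtain ⟨x, hx⟩ : ∃ x : M⟦(1 : ℤ)⟧ ⟶ A, O₁.m₁ = w ≫ x := Triangle.yoneda_exact₃ _ hS _ c₁
  obtain ⟨y, hy⟩ : ∃ y : A ⟶ M, O₂.m₃ = y ≫ v := Triangle.coyoneda_exact₃ _ hS _ c₂
  exact ⟨x ≫ y, by rw [hx, hy]; simp only [assoc]⟩

/-- two maps of triangles as in the counterexample -/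
def mkMap {M Z : C} (a : M ⟶ M) (v : M ⟶ Z) (w : Z ⟶ M⟦(1 : ℤ)⟧) (f g : M ⟶ M) (h : Z ⟶ Z)
    (e₁ : a ≫ g = f ≫ a) (e₂ : v ≫ h = g ≫ v) (e₃ : w ≫ f⟦(1 : ℤ)⟧' = h ≫ w) :
    Triangle.mk a v w ⟶ Triangle.mk a v w where
  hom₁ := f
  hom₂ := g
  hom₃ := h
  comm₁ := e₁
  comm₂ := e₂
  comm₃ := e₃

omit [HasZeroObject C] [∀ n : ℤ, (shiftFunctor C n).Additive] [Pretriangulated C] in
theorem mk_homotopic {M Z : C} {a : M ⟶ M} {v : M ⟶ Z} {w : Z ⟶ M⟦(1 : ℤ)⟧} {f g : M ⟶ M}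
    {h : Z ⟶ Z}
    {e₁ : a ≫ g = f ≫ a} {e₂ : v ≫ h = g ≫ v} {e₃ : w ≫ f⟦(1 : ℤ)⟧' = h ≫ w}
    {f₁ g₁ : M ⟶ M} {h₁ : Z ⟶ Z}
    {e₁' : a ≫ g₁ = f₁ ≫ a} {e₂' : v ≫ h₁ = g₁ ≫ v} {e₃' : w ≫ f₁⟦(1 : ℤ)⟧' = h₁ ≫ w}
    (k₁ : M ⟶ M) (k₂ : Z ⟶ M) (k₃ : M⟦(1 : ℤ)⟧ ⟶ Z)
    (q₁ : (f - f₁ - a ≫ k₁)⟦(1 : ℤ)⟧' = k₃ ≫ w) (q₂ : g - g₁ = k₁ ≫ a + v ≫ k₂)
    (q₃ : h - h₁ = k₂ ≫ v + w ≫ k₃) :
    ChainHomotopic (mkMap a v w f g h e₁ e₂ e₃) (mkMap a v w f₁ g₁ h₁ e₁' e₂' e₃') :=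
  ⟨k₁, k₂, k₃, q₁, q₂, q₃⟩

theorem counterexample [IsTriangulated C] (M : C) (h16 : (16 : ℤ) • 𝟙 M = 0)
    (h8 : (8 : ℤ) • 𝟙 M ≠ 0) :
    ∃ (T T' : Triangle C) (hT : T ∈ distTriang C) (hT' : T' ∈ distTriang C) (φ ψ : T ⟶ T'),
      ChainHomotopic φ ψ ∧ Nonempty (Choice φ) ∧ (∀ c : Choice φ, VerdierGood hT hT' φ c) ∧
        (∀ c : Choice ψ, ¬ VerdierGood hT hT' ψ c) := by
  -- the map `2`
  obtain ⟨a, ha⟩ : ∃ a : M ⟶ M, a = (2 : ℤ) • 𝟙 M := ⟨_, rfl⟩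
  have hl : ∀ {X : C} (f : M ⟶ X), a ≫ f = (2 : ℤ) • f := by
    intro X f; rw [ha, Preadditive.zsmul_comp, id_comp]
  have hr : ∀ {X : C} (f : X ⟶ M), f ≫ a = (2 : ℤ) • f := by
    intro X f; rw [ha, Preadditive.comp_zsmul, comp_id]
  have hs : a⟦(1 : ℤ)⟧' = (2 : ℤ) • 𝟙 (M⟦(1 : ℤ)⟧) := by
    rw [ha, Functor.map_zsmul, CategoryTheory.Functor.map_id]
  have hls : ∀ {X : C} (f : M⟦(1 : ℤ)⟧ ⟶ X), a⟦(1 : ℤ)⟧' ≫ f = (2 : ℤ) • f := by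
    intro X f; rw [hs, Preadditive.zsmul_comp, id_comp]
  have hrs : ∀ {X : C} (f : X ⟶ M⟦(1 : ℤ)⟧), f ≫ a⟦(1 : ℤ)⟧' = (2 : ℤ) • f := by
    intro X f; rw [hs, Preadditive.comp_zsmul, comp_id]
  have h16' : (16 : ℤ) • 𝟙 (M⟦(1 : ℤ)⟧) = 0 := by
    rw [← CategoryTheory.Functor.map_id, ← Functor.map_zsmul, h16, Functor.map_zero]
  have h8' : (8 : ℤ) • 𝟙 (M⟦(1 : ℤ)⟧) ≠ 0 := by
    intro h
    rw [← CategoryTheory.Functor.map_id, ← Functor.map_zsmul] at h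
    exact h8 ((shiftFunctor C (1 : ℤ)).map_injective (by rw [h, Functor.map_zero]))
  obtain ⟨Z, v, w, hS⟩ := distinguished_cocone_triangle a
  obtain ⟨A, p, r, hA⟩ := distinguished_cocone_triangle (a ≫ a)
  let O : Octahedron (rfl : a ≫ a = a ≫ a) hS hS hA := someOctahedron rfl hS hS hA
  obtain ⟨α, hα⟩ : ∃ α, α = O.m₁ := ⟨_, rfl⟩
  obtain ⟨β, hβ⟩ : ∃ β, β = O.m₃ := ⟨_, rfl⟩
  have c₁ : v ≫ α = a ≫ p := by rw [hα]; exact O.comm₁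
  have c₂ : α ≫ r = w := by rw [hα]; exact O.comm₂
  have c₃ : p ≫ β = v := by rw [hβ]; exact O.comm₃
  have c₄ : r ≫ a⟦(1 : ℤ)⟧' = β ≫ w := by rw [hβ]; exact O.comm₄
  have c₅ : α ≫ β = 0 := by
    rw [hα, hβ]; exact comp_distTriang_mor_zero₁₂ _ O.mem
  have av : a ≫ v = 0 := comp_distTriang_mor_zero₁₂ _ hS
  have vw : v ≫ w = 0 := comp_distTriang_mor_zero₂₃ _ hS
  have wa : w ≫ a⟦(1 : ℤ)⟧' = 0 := comp_distTriang_mor_zero₃₁ _ hS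
  have pr : p ≫ r = 0 := comp_distTriang_mor_zero₂₃ _ hA
  have ra : r ≫ (a ≫ a)⟦(1 : ℤ)⟧' = 0 := comp_distTriang_mor_zero₃₁ _ hA
  -- the map `μ`
  obtain ⟨μ, hμ⟩ : ∃ μ : M⟦(1 : ℤ)⟧ ⟶ A, (a ≫ a)⟦(1 : ℤ)⟧' = μ ≫ r := by
    have := Triangle.coyoneda_exact₁ _ hA ((a ≫ a)⟦(1 : ℤ)⟧') (by
      change (a ≫ a)⟦(1 : ℤ)⟧' ≫ (a ≫ a)⟦(1 : ℤ)⟧' = 0
      rw [Functor.map_comp, assoc, hls, hls, hrs, hs]
      simp only [smul_smul]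
      exact h16')
    exact this
  -- the map `h`
  obtain ⟨h, hh⟩ : ∃ h : Z ⟶ Z, h = w ≫ μ ≫ β := ⟨_, rfl⟩
  have rμr : r ≫ μ ≫ r = 0 := by rw [← hμ]; exact ra
  have hw : h ≫ w = 0 := by
    rw [hh, assoc, assoc, ← c₄, ← assoc μ, ← hμ, Functor.map_comp, ← assoc, ← assoc, wa,
          zero_comp, zero_comp]
  have vh : v ≫ h = 0 := by rw [hh, ← assoc, vw, zero_comp]
  refine ⟨Triangle.mk a v w, Triangle.mk a v w, hS, hS,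
    mkMap a v w a a h rfl (by rw [vh, av]) (by rw [hw, wa]),
    mkMap a v w 0 0 h (by rw [zero_comp, comp_zero]) (by rw [vh, zero_comp])
      (by rw [hw, Functor.map_zero, comp_zero]), ?_, nonempty_choice _, ?_, ?_⟩
  · refine mk_homotopic (𝟙 M) 0 0 ?_ ?_ ?_
    · rw [comp_id, sub_zero, sub_self, Functor.map_zero, zero_comp]
    · rw [id_comp, comp_zero, sub_zero, add_zero]
    · rw [zero_comp, comp_zero, sub_self, add_zero]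
  · intro c
    have key := pos hS hA O μ rμr c.hA c.hY c.hX
    rw [← hβ, ← hh] at key
    exact key
  · rintro c ⟨O₁, O₂, hc⟩
    obtain ⟨x, hx⟩ := neg' hS c.hA c.hY c.hX O₁ O₂
    have hc' : h = w ≫ x ≫ v := hc.trans hx
    have e₀ : w ≫ (μ ≫ β - x ≫ v) = 0 := by
      rw [Preadditive.comp_sub, ← hh, ← hc', sub_self]
    obtain ⟨ξ, hξ⟩ : ∃ ξ : M⟦(1 : ℤ)⟧ ⟶ Z, μ ≫ β - x ≫ v = a⟦(1 : ℤ)⟧' ≫ ξ := by
      obtain ⟨g, hg⟩ : ∃ g : M⟦(1 : ℤ)⟧ ⟶ Z, μ ≫ β - x ≫ v = (- a⟦(1 : ℤ)⟧') ≫ g :=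
        Triangle.yoneda_exact₃ _ (rot_of_distTriang _ hS) _ e₀
      exact ⟨- g, by rw [hg, Preadditive.neg_comp, Preadditive.comp_neg]⟩
    have e₁ := congrArg (fun t => t ≫ w) hξ
    simp only [Preadditive.sub_comp, assoc, vw, comp_zero, sub_zero] at e₁
    rw [← c₄, ← assoc, ← hμ, Functor.map_comp, assoc, hls, hls, hs,
      Preadditive.zsmul_comp, id_comp] at e₁
    have e₂ : (2 : ℤ) • (ξ ≫ w) = 0 := by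
      rw [← hrs, assoc, wa, comp_zero]
    rw [e₂, smul_smul, smul_smul] at e₁
    exact h8' e₁

end abstract_part

/-- There is a triangulated category with two chain homotopic maps `φ, ψ` of exact triangles such
that `φ` is Verdier good (with respect to every choice of exact triangles on `gu`, `g`, `f`), while
`ψ` is not Verdier good (with respect to any choice). -/
theorem result :
    ∃ (C : Type 1) (_ : Category.{1} C) (_ : Preadditive C) (_ : HasZeroObject C)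
      (_ : HasShift C ℤ) (_ : ∀ n : ℤ, (shiftFunctor C n).Additive) (_ : Pretriangulated C)
      (_ : IsTriangulated C) (T T' : Triangle C) (hT : T ∈ distTriang C)
      (hT' : T' ∈ distTriang C) (φ ψ : T ⟶ T'),
      ChainHomotopic φ ψ ∧ Nonempty (Choice φ) ∧ (∀ c : Choice φ, VerdierGood hT hT' φ c) ∧
        (∀ c : Choice ψ, ¬ VerdierGood hT hT' ψ c) := by
  let _ : HasDerivedCategory.{1} (ModuleCat.{0} (ZMod 16)) := HasDerivedCategory.standard _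
  let N : ModuleCat.{0} (ZMod 16) := ModuleCat.of (ZMod 16) (ZMod 16)
  refine ⟨DerivedCategory (ModuleCat.{0} (ZMod 16)), inferInstance, inferInstance, inferInstance,
    inferInstance, inferInstance, inferInstance, inferInstance,
    counterexample ((DerivedCategory.singleFunctor (ModuleCat.{0} (ZMod 16)) 0).obj N) ?_ ?_⟩
  · have h : (16 : ℤ) • 𝟙 N = 0 := by
      apply ModuleCat.hom_ext
      apply LinearMap.ext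
      intro (x : ZMod 16)
      change (16 : ℤ) • x = 0
      rw [zsmul_eq_mul]
      have : ((16 : ℤ) : ZMod 16) = 0 := by decide
      rw [this, zero_mul]
    rw [← CategoryTheory.Functor.map_id, ← Functor.map_zsmul, h, Functor.map_zero]
  · intro h
    rw [← CategoryTheory.Functor.map_id, ← Functor.map_zsmul] at h
    have h2 : (8 : ℤ) • 𝟙 N = 0 :=
      (DerivedCategory.singleFunctor (ModuleCat.{0} (ZMod 16)) 0).map_injective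
        (by rw [h, Functor.map_zero])
    have h3 := congrArg (fun f : N ⟶ N => f.hom (1 : ZMod 16)) h2
    have h4 : (8 : ℤ) • (1 : ZMod 16) = 0 := h3
    rw [zsmul_eq_mul, mul_one] at h4
    exact absurd h4 (by decide)

end Pool.Agent.Results.MP_f89e7b_al.NotHomotopyInvariant
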